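import Pool.Agent.H67.NNS.Main

namespace Pool.Agent.Results.MP_5c1318_gt.NoNullity

open Pool.NNS

/-- **The structure vector field of a real hypersurface of a two-plane Grassmannian satisfies no
nullity condition, not even at one point.**

Here `ε = 1` is the complex two-plane Grassmannian of `ℂ^{m+2}` and `ε = -1` its noncompact dual,
`m ≥ 3`, and `F` is a local parametrisation by `ℝ^n`, `n = 4 m - 1`, of a real hypersurface. -/
theorem result : ∀ m n : ℕ, 3 ≤ m → n + 1 = 4 * m → ∀ ε s : ℝ, (ε = 1 ∨ ε = -1) → 0 < s →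
    ∀ F : (Fin n → ℝ) → Matrix (Fin (m + 2)) (Fin (m + 2)) ℂ, IsImm ε F → ∀ u : Fin n → ℝ,
    (∃ N ξ, IsNR s ε F u N ξ) ∧ ∀ N ξ, IsNR s ε F u N ξ →
      ∀ (κ μ ν : ℝ) (A B : (Fin n → ℝ) → Fin n → ℝ), ¬ Nullity (gram s ε F) u ξ κ μ ν A B :=
  fun _ _ hm hn _ _ hε hs F hF u => noNullity hm hn hε hs F hF u

end Pool.Agent.Results.MP_5c1318_gt.NoNullity
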